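import Mathlib

/-! Continuous cocycles of order `ℓ` are given by radicals (Kummer theory). -/

set_option autoImplicit false

namespace Pool.Agent.H66.SC

variable {k κ : Type} [Field k] [Field κ] [Algebra k κ] [IsAlgClosure k κ] [CharZero k]

/-- a cocycle with values in the `n`-th roots of unity which is trivial on an open subgroup is
`σ ↦ σ(δ) / δ` -/
theorem exists_delta {n : ℕ} (hn : 0 < n) (ζ : (κ ≃ₐ[k] κ) → κ) (h1 : ∀ σ, ζ σ ^ n = 1)
    (hc : ∀ σ τ, ζ (σ * τ) = σ (ζ τ) * ζ σ) (E : IntermediateField k κ) [FiniteDimensional k E]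
    (hE : ∀ σ ∈ E.fixingSubgroup, ζ σ = 1) : ∃ δ : κ, δ ≠ 0 ∧ ∀ σ, ζ σ = σ δ / δ := by
  classical
  have hac : IsAlgClosed κ := IsAlgClosure.isAlgClosed k
  have halg : Algebra.IsAlgebraic k κ := IsAlgClosure.isAlgebraic
  have hnorm : Normal k κ := IsAlgClosure.normal k κ
  have hint : Algebra.IsIntegral k κ := inferInstance
  -- a finite normal extension that contains `E` and the roots of unity
  let P : Polynomial k := Polynomial.X ^ n - 1
  let S : Set κ := P.rootSet κ
  have hSf : S.Finite := P.rootSet_finite κ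
  let E1 : IntermediateField k κ := IntermediateField.adjoin k S
  haveI : FiniteDimensional k E1 := by
    haveI : Finite S := hSf
    exact IntermediateField.finiteDimensional_adjoin fun x _ => Algebra.IsIntegral.isIntegral x
  haveI : FiniteDimensional k (E ⊔ E1 : IntermediateField k κ) :=
    IntermediateField.finiteDimensional_sup E E1
  let E2 : IntermediateField k κ := IntermediateField.normalClosure k (E ⊔ E1 : IntermediateField k κ) κ
  haveI hE2f : FiniteDimensional k E2 := normalClosure.is_finiteDimensional k _ κ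
  haveI hE2n : Normal k E2 := normalClosure.normal k _ κ
  have hle : E ⊔ E1 ≤ E2 := IntermediateField.le_normalClosure _
  have hroot : ∀ z : κ, z ^ n = 1 → z ∈ E2 := by
    intro z hz
    apply hle
    apply (le_sup_right : E1 ≤ E ⊔ E1)
    apply IntermediateField.subset_adjoin
    show z ∈ P.rootSet κ
    rw [Polynomial.mem_rootSet]
    refine ⟨Polynomial.X_pow_sub_C_ne_zero hn (1 : k) |> fun h => by simpa using h, ?_⟩
    simp [P, hz]
  have htriv : ∀ σ ∈ E2.fixingSubgroup, ζ σ = 1 := by
    intro σ hσ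
    apply hE
    rw [IntermediateField.mem_fixingSubgroup_iff] at hσ ⊢
    intro x hx
    exact hσ x (hle ((le_sup_left : E ≤ E ⊔ E1) hx))
  have hwd : ∀ σ τ : κ ≃ₐ[k] κ, AlgEquiv.restrictNormalHom E2 σ = AlgEquiv.restrictNormalHom E2 τ →
      ζ σ = ζ τ := by
    intro σ τ h
    have h2 : τ⁻¹ * σ ∈ E2.fixingSubgroup := by
      rw [← IntermediateField.restrictNormalHom_ker, MonoidHom.mem_ker, map_mul, h, map_inv,
        inv_mul_cancel]
    have h3 : σ = τ * (τ⁻¹ * σ) := by group
    rw [h3, hc, htriv _ h2, map_one, one_mul]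
  let lift : (E2 ≃ₐ[k] E2) → (κ ≃ₐ[k] κ) := Function.surjInv
    (AlgEquiv.restrictNormalHom_surjective (F := k) (K₁ := E2) κ)
  have hlift : ∀ g, AlgEquiv.restrictNormalHom E2 (lift g) = g := fun g =>
    Function.surjInv_eq (AlgEquiv.restrictNormalHom_surjective (F := k) (K₁ := E2) κ) g
  have hne : ∀ σ, ζ σ ≠ 0 := by
    intro σ h
    have := h1 σ
    rw [h, zero_pow hn.ne'] at this
    exact zero_ne_one this
  let f : (E2 ≃ₐ[k] E2) → E2ˣ := fun g =>
    Units.mk0 (⟨ζ (lift g), hroot _ (h1 _)⟩ : E2) fun h => hne (lift g)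
      (congrArg (fun z : E2 => (z : κ)) h)
  have hf : ∀ g, ((f g : E2) : κ) = ζ (lift g) := fun g => rfl
  have hres : ∀ (g : E2 ≃ₐ[k] E2) (z : E2), ((g z : E2) : κ) = lift g (z : κ) := by
    intro g z
    conv_lhs => rw [← hlift g]
    exact AlgEquiv.restrictNormalHom_apply (L := E2) (lift g) z
  have hcoc : groupCohomology.IsMulCocycle₁ f := by
    intro g h
    apply Units.ext
    apply Subtype.ext
    rw [hf, Units.val_mul, MulMemClass.coe_mul, hf, AlgEquiv.smul_units_def, Units.coe_map]
    show ζ (lift (g * h)) = ((g (f h : E2) : E2) : κ) * _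
    rw [hres, hf, ← hc]
    apply hwd
    rw [map_mul, hlift, hlift, hlift]
  obtain ⟨β, hβ⟩ := groupCohomology.isMulCoboundary₁_of_isMulCocycle₁_of_aut_to_units f hcoc
  refine ⟨((β : E2) : κ), ?_, fun σ => ?_⟩
  · intro h
    exact β.ne_zero (Subtype.ext h)
  · have h2 := hβ (AlgEquiv.restrictNormalHom E2 σ)
    have h3 := congrArg (fun z : E2ˣ => ((z : E2) : κ)) h2
    simp only [hf, Units.val_div_eq_div_val] at h3
    rw [hwd σ (lift (AlgEquiv.restrictNormalHom E2 σ)) (hlift _).symm, ← h3]
    have h4 : ((AlgEquiv.restrictNormalHom E2 σ • β : E2ˣ) : E2) =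
        AlgEquiv.restrictNormalHom E2 σ (β : E2) := rfl
    rw [h4]
    show (((AlgEquiv.restrictNormalHom E2 σ (β : E2)) / (β : E2) : E2) : κ) = _
    rw [IntermediateField.coe_div]
    congr 1
    exact AlgEquiv.restrictNormalHom_apply (L := E2) σ (β : E2)

end Pool.Agent.H66.SC
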