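import Pool.Agent.H66.SC.Tw

/-! The covering field does not depend on the constant. -/

set_option autoImplicit false
set_option linter.all false

open Polynomial

namespace Pool.Agent.H66.SC

open Pool.Agent.Y157.PS Pool.Agent.R925.L

section geom

variable {k F Ω : Type} [Field k] [Field F] [Field Ω] [Algebra k F] [Algebra F Ω]
  [Algebra k Ω] [IsScalarTower k F Ω]

instance tow (L : IntermediateField F Ω) : IsScalarTower k L Ω :=
  IsScalarTower.of_algebraMap_eq fun c => by
    rw [IsScalarTower.algebraMap_apply k F Ω, IsScalarTower.algebraMap_apply k F L]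
    rfl

theorem gen_top {x : F} (hF : IntermediateField.adjoin k {x} = (⊤ : IntermediateField k F)) (y : Ω) :
    IntermediateField.adjoin k {algebraMap F (IntermediateField.adjoin F {y}) x,
      (⟨y, IntermediateField.mem_adjoin_simple_self F y⟩ : IntermediateField.adjoin F {y})} =
      (⊤ : IntermediateField k (IntermediateField.adjoin F {y})) := by
  set F₁ := IntermediateField.adjoin F {y} with hF₁
  set x₁ : F₁ := algebraMap F F₁ x with hx₁
  set y₁ : F₁ := ⟨y, IntermediateField.mem_adjoin_simple_self F y⟩ with hy₁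
  set T := IntermediateField.adjoin k {x₁, y₁} with hT
  let T' : Subfield Ω := T.toSubfield.map (algebraMap F₁ Ω)
  have hx : ∀ c : F, algebraMap F F₁ c ∈ T := by
    intro c
    have h1 : c ∈ IntermediateField.adjoin k {x} := by rw [hF]; trivial
    induction h1 using IntermediateField.adjoin_induction with
    | mem z hz =>
      rw [Set.mem_singleton_iff] at hz
      rw [hz]
      exact IntermediateField.subset_adjoin _ _ (by simp [hx₁])
    | algebraMap a =>
      have h2 : algebraMap F F₁ (algebraMap k F a) = algebraMap k F₁ a :=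
        (IsScalarTower.algebraMap_apply k F F₁ a).symm
      rw [h2]
      exact T.algebraMap_mem a
    | add a b _ _ ha hb => rw [map_add]; exact add_mem ha hb
    | inv a _ ha => rw [map_inv₀]; exact inv_mem ha
    | mul a b _ _ ha hb => rw [map_mul]; exact mul_mem ha hb
  rw [eq_top_iff]
  rintro ⟨z, hz⟩ -
  have h3 : z ∈ T' := by
    refine adjoin_le_sub (T := T') (fun c => ?_) (fun w hw => ?_) z hz
    · exact ⟨algebraMap F F₁ c, hx c, rfl⟩
    · rw [Set.mem_singleton_iff] at hw
      rw [hw]
      exact ⟨y₁, IntermediateField.subset_adjoin _ _ (by simp), rfl⟩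
  obtain ⟨w, hw, hwz⟩ := h3
  have h4 : w = ⟨z, hz⟩ := Subtype.ext hwz
  rw [← h4]
  exact hw

/-- the covering field of `k(x, y)` and the one of `κ(x, δ y)` -/
theorem max_adj (ℓ : ℕ) {x : F} (hF : IntermediateField.adjoin k {x} = (⊤ : IntermediateField k F))
    (y : Ω) (δ : algebraicClosure k Ω) (hδ : δ ≠ 0) (z : Ω) :
    z ∈ maxPro ℓ (algebraicClosure k Ω) (IntermediateField.adjoin
      (IntermediateField.adjoin (algebraicClosure k Ω) {algebraMap F Ω x})
      {(δ : Ω) * y}) Ω ↔ z ∈ geomPro ℓ k (IntermediateField.adjoin F {y}) Ω :=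
  maxPro_geom ℓ k (gen_top hF y) δ hδ z

/-- the covering field does not change if `y` is multiplied by a constant -/
theorem pro_smul (ℓ : ℕ) {x : F} (hF : IntermediateField.adjoin k {x} = (⊤ : IntermediateField k F))
    (y : Ω) (δ : algebraicClosure k Ω) (hδ : δ ≠ 0) (z : Ω) :
    z ∈ geomPro ℓ k (IntermediateField.adjoin F {(δ : Ω) * y}) Ω ↔
      z ∈ geomPro ℓ k (IntermediateField.adjoin F {y}) Ω := by
  rw [← max_adj ℓ hF y δ hδ z, ← max_adj ℓ hF ((δ : Ω) * y) 1 one_ne_zero z]
  have h1 : (((1 : algebraicClosure k Ω) : Ω)) * ((δ : Ω) * y) = (δ : Ω) * y := by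
    rw [OneMemClass.coe_one, one_mul]
  rw [h1]

end geom

end Pool.Agent.H66.SC
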