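import Pool.Agent.H66.SC.Geo
import Pool.Graph.R_seed8.Results.MP_c385f6_ag.EtaleCoverings

/-! Sections over the line. -/

set_option autoImplicit false
set_option linter.all false

open Polynomial

namespace Pool.Agent.H66.SC

open Pool.Agent.Y157.PS Pool.Agent.Results.MP_c385f6_ag.EtaleCoverings

/-- The covering field `M`, as an extension of `F`. -/
noncomputable def coverField (ℓ : ℕ) (k F Ω : Type) [Field k] [Field F] [Field Ω] [Algebra k F]
    [Algebra F Ω] [Algebra k Ω] (y : Ω) : IntermediateField F Ω :=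
  (proEllField ℓ k (IntermediateField.adjoin F {y}) Ω).restrictScalars F

section

variable {k F Ω : Type} [Field k] [Field F] [Field Ω] [Algebra k F] [Algebra F Ω] [Algebra k Ω]
  [IsScalarTower k F Ω]

theorem mem_cover (ℓ : ℕ) (y z : Ω) :
    z ∈ coverField ℓ k F Ω y ↔ z ∈ proEllField ℓ k (IntermediateField.adjoin F {y}) Ω := by
  unfold coverField
  exact IntermediateField.mem_restrictScalars F

theorem cover_y (ℓ : ℕ) (y : Ω) : y ∈ coverField ℓ k F Ω y := by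
  rw [mem_cover]
  exact (proEllField ℓ k (IntermediateField.adjoin F {y}) Ω).algebraMap_mem
    ⟨y, IntermediateField.mem_adjoin_simple_self F y⟩

theorem cover_c (ℓ : ℕ) (y : Ω) (c : Ω) (hc : c ∈ algebraicClosure k Ω) :
    c ∈ coverField ℓ k F Ω y := by
  rw [mem_cover]
  exact mem_proEll (F := IntermediateField.adjoin F {y}) ⟨c, hc⟩

theorem cover_smul (ℓ : ℕ) {x : F}
    (hF : IntermediateField.adjoin k {x} = (⊤ : IntermediateField k F)) (y : Ω)
    (δ : algebraicClosure k Ω) (hδ : δ ≠ 0) :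
    coverField ℓ k F Ω ((δ : Ω) * y) = coverField ℓ k F Ω y := by
  ext z
  rw [mem_cover, mem_cover, proEll_eq, proEll_eq]
  exact pro_smul ℓ hF y δ hδ z

end

section main

variable {k F Ω : Type} [Field k] [CharZero k] [Field F] [Field Ω] [Algebra k F] [Algebra F Ω]
  [Algebra k Ω] [IsScalarTower k F Ω] [IsAlgClosed Ω] [Algebra.IsAlgebraic F Ω]

/-- what the section fixes -/
theorem fix_base {N : IntermediateField F Ω} (hN : ∀ z ∈ algebraicClosure k Ω, z ∈ N)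
    (S : (algebraicClosure k Ω ≃ₐ[k] algebraicClosure k Ω) →* (N ≃ₐ[F] N))
    (hcompat : ∀ σ (c : algebraicClosure k Ω) (z : N), (z : Ω) = (c : Ω) →
      (S σ z : Ω) = (σ c : Ω)) (y : Ω) (hyN : y ∈ N) (δ : algebraicClosure k Ω) (hδ : δ ≠ 0)
    (hδS : ∀ σ, S σ ⟨y, hyN⟩ =
      (⟨(σ δ : Ω) / (δ : Ω), hN _ (div_mem (σ δ).2 δ.2)⟩ : N) * ⟨y, hyN⟩)
    (h : (δ : Ω)⁻¹ * y ∈ N) (σ : algebraicClosure k Ω ≃ₐ[k] algebraicClosure k Ω) :
    S σ ⟨(δ : Ω)⁻¹ * y, h⟩ = ⟨(δ : Ω)⁻¹ * y, h⟩ := by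
  have hδ0 : (δ : Ω) ≠ 0 := fun h => hδ (Subtype.ext h)
  have h1 : (⟨(δ : Ω)⁻¹ * y, h⟩ : N) = (⟨(δ : Ω)⁻¹, hN _ (inv_mem δ.2)⟩ : N) * ⟨y, hyN⟩ := rfl
  rw [h1, map_mul, hδS]
  apply Subtype.ext
  have h2 := hcompat σ δ⁻¹ ⟨(δ : Ω)⁻¹, hN _ (inv_mem δ.2)⟩ rfl
  show (S σ ⟨(δ : Ω)⁻¹, hN _ (inv_mem δ.2)⟩ : Ω) * (((σ δ : Ω) / (δ : Ω)) * y) = (δ : Ω)⁻¹ * y
  rw [h2, map_inv₀]
  have h3 : (σ δ : Ω) ≠ 0 := by
    intro h4
    apply hδ
    apply σ.injective
    rw [map_zero]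
    exact Subtype.ext h4
  have h4 : ((((σ δ)⁻¹ : algebraicClosure k Ω)) : Ω) = ((σ δ : Ω))⁻¹ := rfl
  rw [h4]
  field_simp

end main

/-- Let the splitting `s` of `Gal(N/F) → Gal(K/k)` have its image in `Gal(N/L)`, `L ⊆ M ⊆ N`.  It
induces on `M` the section of exactly one point above a branch point, and this is a `k`-rational point
of the curve with function field `L`. -/
def FromPoint {k F Ω K N : Type} [Field k] [Field F] [Field Ω] [Field K] [Field N]
    [Algebra k F] [Algebra k K] [Algebra F N] [Algebra F Ω] [Algebra K Ω] [Algebra N Ω]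
    (f : k[X]) (x : F) (s : Splitting k F Ω K N) (M L : IntermediateField F Ω) : Prop :=
  ∃ W : ValuationSubring N,
    (∃ e : k, f.eval e = 0 ∧ ZeroAt k W (x - algebraMap k F e)) ∧
    (∀ z : N, algebraMap N Ω z ∈ L → z ∈ W →
      ∃ c : k, z - algebraMap F N (algebraMap k F c) ∈ W.nonunits) ∧
    InDecomposition s M W ∧
    ∀ W' : ValuationSubring N, ZeroAt k W' (aeval x f) → InDecomposition s M W' →
      ∀ z : N, algebraMap N Ω z ∈ M → (z ∈ W' ↔ z ∈ W)

section main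

variable {A k F Ω : Type} [CommRing A] [IsDomain A] [IsDiscreteValuationRing A]
  [IsAdicComplete (IsLocalRing.maximalIdeal A) A] [Finite (IsLocalRing.ResidueField A)]
  [Field k] [CharZero k] [Algebra A k] [IsFractionRing A k] [Field F] [Field Ω] [Algebra k F]
  [Algebra F Ω] [Algebra k Ω] [IsScalarTower k F Ω] [IsAlgClosure F Ω]

theorem t1 {ℓ : ℕ} [Fact ℓ.Prime] (f : A[X]) (hℓ : IsUnit (ℓ : A)) (hf : GoodPolynomial ℓ f)
    (x : F) (hx : Transcendental k x)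
    (hF : IntermediateField.adjoin k {x} = (⊤ : IntermediateField k F)) (y : Ω)
    (hy : y ^ ℓ = algebraMap F Ω (aeval x (f.map (algebraMap A k))))
    (L N : IntermediateField F Ω) (hL : L ≤ coverField ℓ k F Ω y) (hN : coverField ℓ k F Ω y ≤ N)
    (s : Splitting k F Ω (algebraicClosure k Ω) N)
    (hs : ∀ σ, ∀ z : N, (z : Ω) ∈ L → s.toHom σ z = z)
    (δ : algebraicClosure k Ω) (c : k) (hδ : δ ≠ 0)
    (hδc : δ ^ ℓ = algebraMap k (algebraicClosure k Ω) c)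
    (hNc : ∀ z ∈ algebraicClosure k Ω, z ∈ N) (hyN : y ∈ N)
    (hδS : ∀ σ, s.toHom σ ⟨y, hyN⟩ =
      (⟨(σ δ : Ω) / (δ : Ω), hNc _ (div_mem (σ δ).2 δ.2)⟩ : N) * ⟨y, hyN⟩)
    (hc : ValuationPrimeTo A ℓ c) :
    FromPoint (f.map (algebraMap A k)) x s (coverField ℓ k F Ω y) L := by
  have hcl : IsAlgClosed Ω := IsAlgClosure.isAlgClosed F
  have halg : Algebra.IsAlgebraic F Ω := IsAlgClosure.isAlgebraic
  have hδ0 : (δ : Ω) ≠ 0 := fun h => hδ (Subtype.ext h)
  have hδi : (δ⁻¹ : algebraicClosure k Ω) ≠ 0 := inv_ne_zero hδ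
  have hcoe : ((δ⁻¹ : algebraicClosure k Ω) : Ω) = (δ : Ω)⁻¹ := rfl
  set y₁ : Ω := ((δ⁻¹ : algebraicClosure k Ω) : Ω) * y with hy₁
  have hM : coverField ℓ k F Ω y₁ = coverField ℓ k F Ω y := cover_smul ℓ hF y δ⁻¹ hδi
  have hy₁M : y₁ ∈ coverField ℓ k F Ω y := hM ▸ cover_y ℓ y₁
  have hy₁N : y₁ ∈ N := hN hy₁M
  have h1 : IntermediateField.adjoin F {y₁} ≤ N := by
    rw [IntermediateField.adjoin_le_iff, Set.singleton_subset_iff]
    exact hy₁N
  have hfixy : ∀ σ, s.toHom σ ⟨y₁, hy₁N⟩ = ⟨y₁, hy₁N⟩ := fun σ =>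
    fix_base hNc s.toHom (fun σ c z hz => s.compat σ c z hz) y hyN δ hδ hδS hy₁N σ
  have hfix : ∀ σ, IntermediateField.adjoin F {y₁} ⊔ L ≤
      Pool.Agent.V11235.SL.fixF N (s.toHom σ) := by
    intro σ
    refine sup_le ?_ ?_
    · rw [IntermediateField.adjoin_le_iff, Set.singleton_subset_iff]
      exact ⟨hy₁N, hfixy σ⟩
    · intro z hz
      exact ⟨hN (hL hz), hs σ _ hz⟩
  have hfix1 : ∀ σ, ∀ z : N, (z : Ω) ∈ IntermediateField.adjoin F {y₁} → s.toHom σ z = z := by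
    intro σ z hz
    obtain ⟨h2, h3⟩ := hfix σ (le_sup_left (a := IntermediateField.adjoin F {y₁}) hz)
    exact h3
  let F₁ := IntermediateField.adjoin F {y₁}
  have hcl1 : IsAlgClosure F₁ Ω := ⟨hcl, inferInstance⟩
  let s₁ : Splitting k F₁ Ω (algebraicClosure k Ω) (ext1 h1) :=
    { toHom := S1 h1 s.toHom hfix1
      cont := S1_cont h1 s.toHom hfix1 s.cont
      compat := fun σ c z hz => s.compat σ c ((eN h1).symm z) hz }
  have hfun : IsFunctionField ℓ (f.map (algebraMap A k)) c (algebraMap F F₁ x)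
      (⟨y₁, IntermediateField.mem_adjoin_simple_self F y₁⟩ : F₁) := by
    refine ⟨?_, ?_, gen_top hF y₁⟩
    · rw [transcendental_algebraMap_iff (algebraMap F F₁).injective]
      exact hx
    · apply Subtype.ext
      have h2 : ((aeval (algebraMap F F₁ x) (f.map (algebraMap A k)) : F₁) : Ω) =
          algebraMap F Ω (aeval x (f.map (algebraMap A k))) := by
        rw [aeval_algebraMap_apply]
        rfl
      rw [h2, ← hy]
      show algebraMap k Ω c * y₁ ^ ℓ = y ^ ℓ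
      have h3 : (δ : Ω) ^ ℓ = algebraMap k Ω c := by
        have := congrArg (fun w : algebraicClosure k Ω => (w : Ω)) hδc
        exact this
      rw [← h3, hy₁, hcoe, ← mul_pow, ← mul_assoc, mul_inv_cancel₀ hδ0, one_mul]
  have hM1 : ∀ z, z ∈ proEllField ℓ k F₁ Ω ↔ z ∈ coverField ℓ k F Ω y := by
    intro z
    rw [← hM, mem_cover]
  let L₁ : IntermediateField F₁ Ω := IntermediateField.extendScalars
    (le_sup_left : IntermediateField.adjoin F {y₁} ≤ IntermediateField.adjoin F {y₁} ⊔ L)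
  have hL₁ : L₁ ≤ proEllField ℓ k F₁ Ω := by
    intro z hz
    rw [hM1]
    have h2 : IntermediateField.adjoin F {y₁} ⊔ L ≤ coverField ℓ k F Ω y := by
      refine sup_le ?_ hL
      rw [IntermediateField.adjoin_le_iff, Set.singleton_subset_iff]
      exact hy₁M
    exact h2 hz
  have hN₁ : proEllField ℓ k F₁ Ω ≤ ext1 h1 := by
    intro z hz
    exact hN ((hM1 z).1 hz)
  obtain ⟨W₁, ⟨e, he, hk, hxe⟩, hres, hdec, -, hun⟩ :=
    Pool.Agent.Results.MP_c385f6_ag.EtaleCoverings.result A k ℓ f c hℓ hf hc F₁ Ω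
      (algebraMap F F₁ x) _ hfun L₁ (ext1 h1) hL₁ hN₁ s₁ (by
        intro σ z hz
        have h2 : ((eN h1).symm z : Ω) ∈ IntermediateField.adjoin F {y₁} ⊔ L := hz
        obtain ⟨h3, h4⟩ := hfix σ h2
        exact congrArg (eN h1) h4)
  let i : N →+* ext1 h1 := (eN h1 : N →+* ext1 h1)
  have hWn : ∀ z : N, z ∈ (W₁.comap i).nonunits ↔ i z ∈ W₁.nonunits := fun z => non_incl i W₁ z
  have hsub : ∀ z : F, i (algebraMap F N z) = algebraMap F₁ (ext1 h1) (algebraMap F F₁ z) :=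
    fun z => rfl
  have hk1 : ∀ a : k, algebraMap k F₁ a = algebraMap F F₁ (algebraMap k F a) :=
    fun a => IsScalarTower.algebraMap_apply k F F₁ a
  simp only [hk1] at hk hxe hres hun
  refine ⟨W₁.comap i, ⟨e, he, ?_, ?_⟩, ?_, ?_, ?_⟩
  · intro a
    exact hk a
  · rw [hWn, hsub, map_sub]
    exact hxe
  · intro z hz hzW
    obtain ⟨a, ha⟩ := hres (i z) ((le_sup_right : L ≤ IntermediateField.adjoin F {y₁} ⊔ L) hz) hzW
    refine ⟨a, ?_⟩
    rw [hWn, map_sub]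
    exact ha
  · intro σ z hz
    exact hdec σ (i z) ((hM1 _).2 hz)
  · intro W' hW' hdec' z hz
    have h2 := hun (W'.comap ((eN h1).symm : ext1 h1 →+* N)) ⟨fun a => by
      rw [hk1]
      exact hW'.1 a, by
      rw [non_incl]
      have h3 := hW'.2
      rw [aeval_algebraMap_apply]
      exact h3⟩ (fun σ w hw => hdec' σ ((eN h1).symm w) ((hM1 _).1 hw)) (i z) ((hM1 _).2 hz)
    exact h2

end main

end Pool.Agent.H66.SC
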