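import Pool.Agent.H66.SC.Wt

/-! The theorem for covers of the line. -/

set_option autoImplicit false
set_option linter.all false

open Polynomial

namespace Pool.Agent.H66.SC

open Pool.Agent.Y157.PS Pool.Agent.R925.L Pool.Agent.Results.MP_c385f6_ag.EtaleCoverings

/-- The inertia group of `k` acts nontrivially on the residue field of the Gauss valuation with
respect to `x` of the field `k̄ L`. -/
def InertiaActs (A k : Type) {F Ω : Type} [CommRing A] [IsLocalRing A] [Field k] [Field F] [Field Ω]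
    [Algebra A k] [Algebra F Ω] [Algebra k Ω] (x : Ω) (L : IntermediateField F Ω) : Prop :=
  ∃ (O : ValuationSubring Ω) (γ : Ω ≃ₐ[F] Ω) (z : Ω), GaussAt A k x O ∧ (∀ w ∈ L, γ w = w) ∧
    (∀ c ∈ algebraicClosure k Ω, c ∈ O → γ c - c ∈ O.nonunits) ∧
    z ∈ IntermediateField.adjoin (algebraicClosure k Ω) (L : Set Ω) ∧ z ∈ O ∧
    γ z - z ∉ O.nonunits

section main

variable {A k F Ω : Type} [CommRing A] [IsDomain A] [IsDiscreteValuationRing A]
  [IsAdicComplete (IsLocalRing.maximalIdeal A) A] [Finite (IsLocalRing.ResidueField A)]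
  [Field k] [CharZero k] [Algebra A k] [IsFractionRing A k] [Field F] [Field Ω] [Algebra k F]
  [Algebra F Ω] [Algebra k Ω] [IsScalarTower k F Ω] [IsAlgClosure F Ω]

/-- the unramified case -/
theorem unr {ℓ : ℕ} [Fact ℓ.Prime] (f : A[X]) (hℓ : IsUnit (ℓ : A)) (hf : GoodPolynomial ℓ f)
    (x : F) (hx : Transcendental k x)
    (hF : IntermediateField.adjoin k {x} = (⊤ : IntermediateField k F)) (y : Ω)
    (hy : y ^ ℓ = algebraMap F Ω (aeval x (f.map (algebraMap A k))))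
    (L N : IntermediateField F Ω) (hL : L ≤ coverField ℓ k F Ω y) (hN : coverField ℓ k F Ω y ≤ N)
    (s : Splitting k F Ω (algebraicClosure k Ω) N)
    (hs : ∀ σ, ∀ z : N, (z : Ω) ∈ L → s.toHom σ z = z)
    (δ : algebraicClosure k Ω) (c : k) (hδ : δ ≠ 0)
    (hδc : δ ^ ℓ = algebraMap k (algebraicClosure k Ω) c)
    (hNc : ∀ z ∈ algebraicClosure k Ω, z ∈ N) (hyN : y ∈ N)
    (hδS : ∀ σ, s.toHom σ ⟨y, hyN⟩ =
      (⟨(σ δ : Ω) / (δ : Ω), hNc _ (div_mem (σ δ).2 δ.2)⟩ : N) * ⟨y, hyN⟩)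
    (hc : ¬ ValuationPrimeTo A ℓ c) (hI : InertiaActs A k (algebraMap F Ω x) L) : False := by
  have hℓp : ℓ.Prime := Fact.out
  have hcl : IsAlgClosed Ω := IsAlgClosure.isAlgClosed F
  have halg : Algebra.IsAlgebraic F Ω := IsAlgClosure.isAlgebraic
  have hδ0 : (δ : Ω) ≠ 0 := fun h => hδ (Subtype.ext h)
  have hδi : (δ⁻¹ : algebraicClosure k Ω) ≠ 0 := inv_ne_zero hδ
  have hcoe : ((δ⁻¹ : algebraicClosure k Ω) : Ω) = (δ : Ω)⁻¹ := rfl
  have hc0 : c ≠ 0 := by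
    rintro rfl
    rw [map_zero] at hδc
    exact hδ (pow_eq_zero_iff hℓp.ne_zero |>.1 hδc)
  set y₁ : Ω := ((δ⁻¹ : algebraicClosure k Ω) : Ω) * y with hy₁
  have hM : coverField ℓ k F Ω y₁ = coverField ℓ k F Ω y := cover_smul ℓ hF y δ⁻¹ hδi
  have hy₁M : y₁ ∈ coverField ℓ k F Ω y := hM ▸ cover_y ℓ y₁
  have hy₁N : y₁ ∈ N := hN hy₁M
  have h1 : IntermediateField.adjoin F {y₁} ≤ N := by
    rw [IntermediateField.adjoin_le_iff, Set.singleton_subset_iff]
    exact hy₁N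
  have hfixy : ∀ σ, s.toHom σ ⟨y₁, hy₁N⟩ = ⟨y₁, hy₁N⟩ := fun σ =>
    fix_base hNc s.toHom (fun σ c z hz => s.compat σ c z hz) y hyN δ hδ hδS hy₁N σ
  have hfix1 : ∀ σ, ∀ z : N, (z : Ω) ∈ IntermediateField.adjoin F {y₁} → s.toHom σ z = z := by
    intro σ z hz
    have h2 : IntermediateField.adjoin F {y₁} ≤ Pool.Agent.V11235.SL.fixF N (s.toHom σ) := by
      rw [IntermediateField.adjoin_le_iff, Set.singleton_subset_iff]
      exact ⟨hy₁N, hfixy σ⟩
    obtain ⟨h2, h3⟩ := h2 hz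
    exact h3
  let F₁ := IntermediateField.adjoin F {y₁}
  have halg1 : Algebra.IsAlgebraic F₁ Ω := inferInstance
  let x₁ : F₁ := algebraMap F F₁ x
  let y₁' : F₁ := ⟨y₁, IntermediateField.mem_adjoin_simple_self F y₁⟩
  have hx₁ : Transcendental k x₁ := by
    rw [transcendental_algebraMap_iff (algebraMap F F₁).injective]
    exact hx
  have hxy₁ : algebraMap k F₁ c * y₁' ^ ℓ = aeval x₁ (f.map (algebraMap A k)) := by
    apply Subtype.ext
    have h2 : ((aeval (algebraMap F F₁ x) (f.map (algebraMap A k)) : F₁) : Ω) =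
        algebraMap F Ω (aeval x (f.map (algebraMap A k))) := by
      rw [aeval_algebraMap_apply]
      rfl
    show algebraMap k Ω c * y₁ ^ ℓ = _
    rw [h2, ← hy]
    have h3 : (δ : Ω) ^ ℓ = algebraMap k Ω c := by
      have := congrArg (fun w : algebraicClosure k Ω => (w : Ω)) hδc
      exact this
    rw [← h3, hy₁, hcoe, ← mul_pow, ← mul_assoc, mul_inv_cancel₀ hδ0, one_mul]
  have hgen := gen_top hF y₁
  have hM1 : ∀ z, z ∈ geomPro ℓ k F₁ Ω ↔ z ∈ coverField ℓ k F Ω y := by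
    intro z
    rw [← hM, mem_cover, proEll_eq]
  have hN₁ : geomPro ℓ k F₁ Ω ≤ ext1 h1 := by
    intro z hz
    exact hN ((hM1 z).1 hz)
  have halgx := alg_of_eqn hℓp.pos (f.map (algebraMap A k)) c hc0 x₁ y₁' hxy₁ hgen
  obtain ⟨T, hTc, hT⟩ := a_ind2 ℓ k F₁ Ω x₁ hx₁ halgx (ext1 h1) hN₁ _
    (S1 h1 s.toHom hfix1) (S1_cont h1 s.toHom hfix1 s.cont)
  have hTs : ∀ σ (z : N) (w : geomPro ℓ k F₁ Ω), (w : Ω) = (z : Ω) →
      ((T σ w : geomPro ℓ k F₁ Ω) : Ω) = ((s.toHom σ z : N) : Ω) := by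
    intro σ z w hw
    exact hT σ (eN h1 z) w hw
  have hTcompat : ∀ σ (c : algebraicClosure k Ω) (z : geomPro ℓ k F₁ Ω), (z : Ω) = (c : Ω) →
      (T σ z : Ω) = (σ c : Ω) := by
    intro σ c z hz
    rw [hTs σ ⟨(z : Ω), hN ((hM1 _).1 z.2)⟩ z rfl]
    exact s.compat σ c _ hz
  -- the data
  obtain ⟨O, γ, z, hO, hγL, hγI, hzL, hzO, hzγ⟩ := hI
  have hnorm : Normal k (algebraicClosure k Ω) := IsAlgClosure.normal k _
  let σ : algebraicClosure k Ω ≃ₐ[k] algebraicClosure k Ω :=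
    AlgEquiv.restrictNormal (γ.restrictScalars k) (algebraicClosure k Ω)
  have hσ : ∀ c : algebraicClosure k Ω, (σ c : Ω) = γ (c : Ω) := fun c =>
    AlgEquiv.restrictNormal_commutes (γ.restrictScalars k) (algebraicClosure k Ω) c
  -- the action on `k̄ L`
  have hkL : ∀ w ∈ IntermediateField.adjoin (algebraicClosure k Ω) (L : Set Ω),
      ∃ hw : w ∈ N, ((s.toHom σ ⟨w, hw⟩ : N) : Ω) = γ w := by
    intro w hw
    induction hw using IntermediateField.adjoin_induction with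
    | mem w hw =>
      refine ⟨hN (hL hw), ?_⟩
      rw [hs σ ⟨w, hN (hL hw)⟩ hw, hγL w hw]
    | algebraMap c =>
      refine ⟨hNc _ c.2, ?_⟩
      rw [show ((s.toHom σ ⟨algebraMap (algebraicClosure k Ω) Ω c, hNc _ c.2⟩ : N) : Ω) =
        (σ c : Ω) from s.compat σ c _ rfl, hσ]
      rfl
    | add a b _ _ ha hb =>
      obtain ⟨ha1, ha2⟩ := ha
      obtain ⟨hb1, hb2⟩ := hb
      refine ⟨add_mem ha1 hb1, ?_⟩
      rw [map_add, ← ha2, ← hb2, ← IntermediateField.coe_add, ← map_add]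
      rfl
    | inv a _ ha =>
      obtain ⟨ha1, ha2⟩ := ha
      refine ⟨inv_mem ha1, ?_⟩
      rw [map_inv₀, ← ha2, ← IntermediateField.coe_inv, ← map_inv₀]
      rfl
    | mul a b _ _ ha hb =>
      obtain ⟨ha1, ha2⟩ := ha
      obtain ⟨hb1, hb2⟩ := hb
      refine ⟨mul_mem ha1 hb1, ?_⟩
      rw [map_mul, ← ha2, ← hb2, ← IntermediateField.coe_mul, ← map_mul]
      rfl
  obtain ⟨hzN, hzS⟩ := hkL z hzL
  have hallM : ∀ w ∈ IntermediateField.adjoin (algebraicClosure k Ω) (L : Set Ω),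
      w ∈ coverField ℓ k F Ω y := by
    intro w hw
    induction hw using IntermediateField.adjoin_induction with
    | mem w hw => exact hL hw
    | algebraMap c => exact cover_c ℓ y _ c.2
    | add a b _ _ ha hb => exact add_mem ha hb
    | inv a _ ha => exact inv_mem ha
    | mul a b _ _ ha hb => exact mul_mem ha hb
  have hzM : z ∈ coverField ℓ k F Ω y := hallM z hzL
  -- the valuation of `c`
  obtain ⟨ϖ, hϖ⟩ := IsDiscreteValuationRing.exists_irreducible A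
  obtain ⟨t, n, ht, hct⟩ := exists_unit_zpow (A := A) hϖ hc0
  have hn : (ℓ : ℤ) ∣ n := by
    by_contra h
    exact hc ⟨ϖ, t, n, hϖ, ht, h, hct⟩
  obtain ⟨m, rfl⟩ := hn
  obtain ⟨hlc, hsep, hdvd, h3⟩ := hf
  have hw := weight hℓ f hlc hsep hdvd h3 ϖ hϖ c m t ht hct x₁ y₁' hx₁ hxy₁ hgen T hTc hTcompat O hO
    σ (fun c hc => by
      rw [hσ]
      exact hγI _ c.2 hc) ⟨z, (hM1 z).2 hzM⟩ hzO
  apply hzγ
  rw [← hzS, ← hTs σ ⟨z, hzN⟩ ⟨z, (hM1 z).2 hzM⟩ rfl]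
  exact hw

end main

end Pool.Agent.H66.SC
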