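import Pool.Agent.H66.SC.T2

/-! Every section over a curve subordinate to the orbifold comes from a point, if the reduction is not
good over an unramified extension. -/

set_option autoImplicit false
set_option linter.all false

open Polynomial

namespace Pool.Agent.H66.SC

open Pool.Agent.Y157.PS Pool.Agent.R925.L Pool.Agent.Results.MP_c385f6_ag.EtaleCoverings

section main

variable {A k F Ω : Type} [CommRing A] [IsDomain A] [IsDiscreteValuationRing A]
  [IsAdicComplete (IsLocalRing.maximalIdeal A) A] [Finite (IsLocalRing.ResidueField A)]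
  [Field k] [CharZero k] [Algebra A k] [IsFractionRing A k] [Field F] [Field Ω] [Algebra k F]
  [Algebra F Ω] [Algebra k Ω] [IsScalarTower k F Ω] [IsAlgClosure F Ω]

/-- `y` is not zero -/
theorem y_ne {ℓ : ℕ} (hℓ0 : 0 < ℓ) (f : A[X]) (hf : GoodPolynomial ℓ f) (x : F)
    (hx : Transcendental k x) (y : Ω)
    (hy : y ^ ℓ = algebraMap F Ω (aeval x (f.map (algebraMap A k)))) : y ≠ 0 := by
  rintro rfl
  rw [zero_pow hℓ0.ne'] at hy
  have h1 : aeval x (f.map (algebraMap A k)) = 0 := by
    apply (algebraMap F Ω).injective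
    rw [← hy, map_zero]
  have h2 := (transcendental_iff.1 hx) _ h1
  have h3 : f ≠ 0 := by
    rintro rfl
    exact absurd hf.2.2.2 (by simp)
  exact h3 ((Polynomial.map_eq_zero_iff (IsFractionRing.injective A k)).1 h2)

theorem main {ℓ : ℕ} [Fact ℓ.Prime] (f : A[X]) (hℓ : IsUnit (ℓ : A)) (hf : GoodPolynomial ℓ f)
    (x : F) (hx : Transcendental k x)
    (hF : IntermediateField.adjoin k {x} = (⊤ : IntermediateField k F)) (y : Ω)
    (hy : y ^ ℓ = algebraMap F Ω (aeval x (f.map (algebraMap A k))))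
    (L N : IntermediateField F Ω) (hL : L ≤ coverField ℓ k F Ω y) (hN : coverField ℓ k F Ω y ≤ N)
    (hI : InertiaActs A k (algebraMap F Ω x) L)
    (s : Splitting k F Ω (algebraicClosure k Ω) N)
    (hs : ∀ σ, ∀ z : N, (z : Ω) ∈ L → s.toHom σ z = z) :
    FromPoint (f.map (algebraMap A k)) x s (coverField ℓ k F Ω y) L := by
  have hℓp : ℓ.Prime := Fact.out
  have hcl : IsAlgClosed Ω := IsAlgClosure.isAlgClosed F
  have halg : Algebra.IsAlgebraic F Ω := IsAlgClosure.isAlgebraic
  have hNc : ∀ z ∈ algebraicClosure k Ω, z ∈ N := fun z hz => hN (cover_c ℓ y z hz)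
  have hyN : y ∈ N := hN (cover_y ℓ y)
  have hy0 : (⟨y, hyN⟩ : N) ≠ 0 := fun h => y_ne hℓp.pos f hf x hx y hy
    (congrArg (fun w : N => (w : Ω)) h)
  obtain ⟨δ, c, hδ, hδc, hδS⟩ := exists_twist hℓp.pos N hNc s.toHom s.cont
    (fun σ c z hz => s.compat σ c z hz) ⟨y, hyN⟩ hy0 _ hy
  by_cases hc : ValuationPrimeTo A ℓ c
  · exact t1 f hℓ hf x hx hF y hy L N hL hN s hs δ c hδ hδc hNc hyN hδS hc
  · exact (unr f hℓ hf x hx hF y hy L N hL hN s hs δ c hδ hδc hNc hyN hδS hc hI).elim

end main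

end Pool.Agent.H66.SC
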