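import Pool.Agent.H66.SC.T3

/-! A criterion for a nontrivial action of inertia on the reduction. -/

set_option autoImplicit false
set_option linter.all false

open Polynomial

namespace Pool.Agent.H66.SC

open Pool.Agent.Y157.PS Pool.Agent.R925.L Pool.Agent.Results.MP_c385f6_ag.EtaleCoverings

section extend

variable {k F Ω : Type} [Field k] [CharZero k] [Field F] [Field Ω] [Algebra k F] [Algebra F Ω]
  [Algebra k Ω] [IsScalarTower k F Ω] [IsAlgClosed Ω] [Algebra.IsAlgebraic F Ω]

/-- automorphisms of the constants extend to automorphisms over `L` -/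
theorem ext_fix (L : IntermediateField F Ω)
    (hL : ∀ c ∈ algebraicClosure k Ω, c ∈ L → ∃ a : k, algebraMap k Ω a = c)
    (τ : algebraicClosure k Ω ≃ₐ[k] algebraicClosure k Ω) :
    ∃ γ : Ω ≃ₐ[L] Ω, ∀ c : algebraicClosure k Ω, γ (c : Ω) = (τ c : Ω) := by
  have hac : IsAlgClosure k (algebraicClosure k Ω) := inferInstance
  have hnorm : Normal k (algebraicClosure k Ω) := IsAlgClosure.normal k _
  have hcΩ : CharZero Ω := charZero_of_injective_algebraMap (algebraMap k Ω).injective
  have hcL : CharZero L := (algebraMap L Ω).charZero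
  have halgL : Algebra.IsAlgebraic L Ω := inferInstance
  have hclos : IsAlgClosure L Ω := ⟨inferInstance, inferInstance⟩
  have hgalL : IsGalois L Ω := inferInstance
  have hgal : IsGalois k (algebraicClosure k Ω) := inferInstance
  let r : (Ω ≃ₐ[L] Ω) →* (algebraicClosure k Ω ≃ₐ[k] algebraicClosure k Ω) :=
    IntermediateField.restrictRestrictAlgEquivMapHom k (algebraicClosure k Ω) L Ω
  have hr : ∀ (γ : Ω ≃ₐ[L] Ω) (c : algebraicClosure k Ω), ((r γ c : algebraicClosure k Ω) : Ω) =
      γ (c : Ω) := by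
    intro γ c
    exact AlgEquiv.restrictNormal_commutes _ (algebraicClosure k Ω) c
  have hcont : Continuous r := by
    refine Pool.Agent.K1H4.SC.cont_of _ fun z => ?_
    have h1 := Pool.Agent.K1H4.SC.cont_mem (MonoidHom.id (Ω ≃ₐ[L] Ω)) continuous_id (z : Ω)
    refine Filter.mem_of_superset h1 fun g hg => ?_
    apply Subtype.ext
    show ((r g z : algebraicClosure k Ω) : Ω) = z
    rw [hr]
    exact hg
  have hclosed : IsClosed (r.range : Set (algebraicClosure k Ω ≃ₐ[k] algebraicClosure k Ω)) := by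
    rw [MonoidHom.coe_range]
    exact (isCompact_range hcont).isClosed
  let H : ClosedSubgroup (algebraicClosure k Ω ≃ₐ[k] algebraicClosure k Ω) := ⟨r.range, hclosed⟩
  have hfix : IntermediateField.fixedField r.range = ⊥ := by
    rw [eq_bot_iff]
    intro c hc
    rw [IntermediateField.mem_fixedField_iff] at hc
    have h1 : (c : Ω) ∈ (⊥ : IntermediateField L Ω) := by
      rw [InfiniteGalois.mem_bot_iff_fixed]
      intro γ
      rw [← hr, hc (r γ) ⟨γ, rfl⟩]
    obtain ⟨w, hw⟩ := IntermediateField.mem_bot.1 h1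
    have h2 : (c : Ω) ∈ L := by
      rw [← hw]
      exact w.2
    obtain ⟨a, ha⟩ := hL c c.2 h2
    rw [IntermediateField.mem_bot]
    exact ⟨a, Subtype.ext ha⟩
  have h1 := InfiniteGalois.fixingSubgroup_fixedField H
  have h2 : r.range = ⊤ := by
    have h3 : (IntermediateField.fixedField (F := k) (E := algebraicClosure k Ω)
      r.range).fixingSubgroup = r.range := h1
    rw [← h3, hfix, IntermediateField.fixingSubgroup_bot]
  have h3 : τ ∈ r.range := by rw [h2]; trivial
  obtain ⟨γ, hγ⟩ := h3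
  exact ⟨γ, fun c => by rw [← hγ, hr]⟩

end extend

section gauss

variable {A k Ω : Type} [CommRing A] [IsDomain A] [IsDiscreteValuationRing A] [Field k] [Field Ω]
  [Algebra A k] [IsFractionRing A k] [Algebra k Ω]

/-- there are Gauss valuations -/
theorem exists_gaussAt (x : Ω) (hx : Transcendental k x) :
    ∃ O : ValuationSubring Ω, GaussAt A k x O := by
  obtain ⟨V, hV1, hV2⟩ := exists_V A k (algebraicClosure k Ω)
  have hxκ : Transcendental (algebraicClosure k Ω) x := fun h => hx (h.restrictScalars k)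
  let j : V →+* algebraicClosure k Ω := V.subtype
  let φ : V[X] →+* Ω := (aeval x : (algebraicClosure k Ω)[X] →ₐ[algebraicClosure k Ω] Ω).toRingHom.comp
    (mapRingHom j)
  have hφ : Function.Injective φ := by
    intro p q hpq
    have h1 : p.map j = q.map j := transcendental_iff_injective.1 hxκ hpq
    exact Polynomial.map_injective j Subtype.val_injective h1
  let R := φ.range
  let e : V[X] ≃+* R := RingEquiv.ofBijective φ.rangeRestrict
    ⟨fun p q h => hφ (congrArg Subtype.val h), φ.rangeRestrict_surjective⟩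
  have he : ∀ p, ((e p : R) : Ω) = φ p := fun p => rfl
  let P₀ : Ideal V[X] := (IsLocalRing.maximalIdeal V).map C
  have hP₀ : P₀.IsPrime := Ideal.isPrime_map_C_of_isPrime
  let P : Ideal R := P₀.comap (e.symm : R →+* V[X])
  have hP : P.IsPrime := Ideal.comap_isPrime _ _
  obtain ⟨O, hO1, hO2⟩ := (LocalSubring.ofPrime R P).exists_le_valuationSubring
  have hR : ∀ p : V[X], φ p ∈ O := fun p => hO1 (LocalSubring.le_ofPrime R P (e p).2)
  have hPn : ∀ p ∈ P₀, φ p ∈ O.nonunits := by
    intro p hp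
    have h1 : e p ∈ P := by
      show e.symm (e p) ∈ P₀
      rw [RingEquiv.symm_apply_apply]
      exact hp
    have h2 := (IsLocalization.AtPrime.to_map_mem_maximal_iff
      (LocalSubring.ofPrime R P).toSubring P (e p)).2 h1
    rw [IsLocalRing.mem_maximalIdeal, mem_nonunits_iff] at h2
    by_contra h3
    apply h2
    have h4 : IsUnit (Subring.inclusion hO1
        (algebraMap R (LocalSubring.ofPrime R P).toSubring (e p))) := by
      have h5 : φ p ∈ O := hR p
      have h6 : (φ p)⁻¹ ∈ O := by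
        by_contra h7
        apply h3
        rw [nonunits_iff]
        exact ⟨h5, Or.inr h7⟩
      have h8 : φ p ≠ 0 := by
        intro h8
        apply h3
        rw [nonunits_iff]
        exact ⟨h5, Or.inl h8⟩
      refine isUnit_iff_exists_inv.mpr ⟨⟨(φ p)⁻¹, h6⟩, Subtype.ext ?_⟩
      exact mul_inv_cancel₀ h8
    exact hO2.1 _ h4
  have hPu : ∀ p ∉ P₀, φ p ∉ O.nonunits := by
    intro p hp h1
    have h2 : e p ∈ P.primeCompl := by
      intro h3
      apply hp
      have h4 : e.symm (e p) ∈ P₀ := h3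
      rwa [RingEquiv.symm_apply_apply] at h4
    have h3 := IsLocalization.map_units (LocalSubring.ofPrime R P).toSubring
      (⟨e p, h2⟩ : P.primeCompl)
    obtain ⟨v, hv⟩ := isUnit_iff_exists_inv.1 h3
    have h4 : φ p * (v : Ω) = 1 := congrArg Subtype.val hv
    have h5 : (v : Ω) ∈ O := hO1 v.2
    rw [nonunits_iff] at h1
    rcases h1.2 with h6 | h6
    · rw [h6, zero_mul] at h4
      exact zero_ne_one h4
    · apply h6
      rw [inv_eq_of_mul_eq_one_right h4]
      exact h5
  have hC : ∀ c : V, φ (C c) = ((c : algebraicClosure k Ω) : Ω) := by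
    intro c
    show aeval x ((C c).map j) = _
    rw [map_C, aeval_C]
    rfl
  have hmem : ∀ p, p ∈ P₀ ↔ ∀ n, p.coeff n ∈ IsLocalRing.maximalIdeal V := fun p =>
    Ideal.mem_map_C_iff
  have hVn : ∀ c ∈ V.nonunits, (c : Ω) ∈ O.nonunits := by
    intro c hc
    have hcV : c ∈ V := ValuationSubring.nonunits_subset hc
    have h1 := hPn (C ⟨c, hcV⟩) (by
      rw [hmem]
      intro n
      rw [coeff_C]
      split_ifs
      · rw [IsLocalRing.mem_maximalIdeal, mem_nonunits_iff]
        exact fun h => (ValuationSubring.coe_mem_nonunits_iff (A := V) (a := ⟨c, hcV⟩)).1 hc h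
      · exact zero_mem _)
    rw [hC] at h1
    exact h1
  have hVi : ∀ c : algebraicClosure k Ω, (c : Ω) ∈ O → c ∈ V := by
    intro c hc
    by_contra hcV
    have h1 : c⁻¹ ∈ V.nonunits := by
      rw [nonunits_iff]
      refine ⟨(V.mem_or_inv_mem c).resolve_left hcV, Or.inr ?_⟩
      rwa [inv_inv]
    have h2 := hVn _ h1
    rw [nonunits_iff] at h2
    rcases h2.2 with h3 | h3
    · have h4 : c⁻¹ = 0 := Subtype.ext h3
      rw [inv_eq_zero] at h4
      exact hcV (h4 ▸ zero_mem _)
    · apply h3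
      have h4 : (((c⁻¹ : algebraicClosure k Ω) : Ω))⁻¹ = (c : Ω) := by
        rw [IntermediateField.coe_inv, inv_inv]
      rw [h4]
      exact hc
  refine ⟨O, fun a => ?_, fun a ha => ?_, fun p hp hpn => ?_⟩
  · have h1 := hR (C ⟨_, hV1 a⟩)
    rw [hC] at h1
    exact h1
  · exact hVn _ (hV2 a ha)
  · have h1 : ∃ q : V[X], q.map j = p := by
      have h2 : p ∈ Polynomial.lifts j := by
        rw [lifts_iff_coeff_lifts]
        intro n
        exact ⟨⟨_, hVi _ (hp n)⟩, rfl⟩
      exact h2
    obtain ⟨q, hq⟩ := h1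
    have h2 : φ q = aeval x p := by
      show aeval x (q.map j) = _
      rw [hq]
    rw [← h2]
    refine ⟨hR q, hPu q ?_⟩
    intro h3
    rw [hmem] at h3
    obtain ⟨n, hn⟩ := hpn
    apply hn
    rw [← hq, coeff_map]
    apply hVn
    have h4 := h3 n
    rw [IsLocalRing.mem_maximalIdeal, mem_nonunits_iff] at h4
    exact (ValuationSubring.coe_mem_nonunits_iff (A := V) (a := q.coeff n)).2 h4

end gauss

section criterion

variable {A k F Ω : Type} [CommRing A] [IsDomain A] [IsDiscreteValuationRing A]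
  [Finite (IsLocalRing.ResidueField A)]
  [Field k] [CharZero k] [Algebra A k] [IsFractionRing A k] [Field F] [Field Ω] [Algebra k F]
  [Algebra F Ω] [Algebra k Ω] [IsScalarTower k F Ω] [IsAlgClosed Ω] [Algebra.IsAlgebraic F Ω]

/-- a criterion: `d z ^ ℓ = f₁(x)`, where the valuation of `d` is not divisible by `ℓ` -/
theorem criterion {ℓ : ℕ} [Fact ℓ.Prime] (hℓ : IsUnit (ℓ : A)) (x : F) (hx : Transcendental k x)
    (L : IntermediateField F Ω)
    (hL : ∀ c ∈ algebraicClosure k Ω, c ∈ L → ∃ a : k, algebraMap k Ω a = c)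
    (f₁ : A[X]) (hf₁ : ∃ n, IsUnit (f₁.coeff n)) (d : k) (hd : ValuationPrimeTo A ℓ d)
    (z : Ω) (hzL : z ∈ L)
    (hz : algebraMap k Ω d * z ^ ℓ = algebraMap F Ω (aeval x (f₁.map (algebraMap A k)))) :
    InertiaActs A k (algebraMap F Ω x) L := by
  have hℓp : ℓ.Prime := Fact.out
  have hac : IsAlgClosure k (algebraicClosure k Ω) := inferInstance
  have hkb : IsAlgClosed (algebraicClosure k Ω) := hac.1
  have hx' : Transcendental k (algebraMap F Ω x) :=
    (transcendental_algebraMap_iff (R := k) (algebraMap F Ω).injective (a := x)).2 hx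
  obtain ⟨O, hO⟩ := exists_gaussAt (A := A) (k := k) (algebraMap F Ω x) hx'
  letI : Algebra A (algebraicClosure k Ω) :=
    ((algebraMap k (algebraicClosure k Ω)).comp (algebraMap A k)).toAlgebra
  haveI hst : IsScalarTower A k (algebraicClosure k Ω) :=
    IsScalarTower.of_algebraMap_eq (fun _ => rfl)
  let ι : algebraicClosure k Ω →+* Ω := algebraMap (algebraicClosure k Ω) Ω
  let V : ValuationSubring (algebraicClosure k Ω) := O.comap ι
  have hVn : ∀ c, c ∈ V.nonunits ↔ (c : Ω) ∈ O.nonunits := fun c => non_incl ι O c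
  have hVa : ∀ a : A, algebraMap A (algebraicClosure k Ω) a ∈ V := hO.1
  have hVm : ∀ a ∈ IsLocalRing.maximalIdeal A, algebraMap A (algebraicClosure k Ω) a ∈
    V.nonunits := by
    intro a ha
    rw [hVn]
    exact hO.2.1 a ha
  obtain ⟨ϖ, t, m, hϖ, ht, hm, hdt⟩ := hd
  have hinj := IsFractionRing.injective A k
  have hϖ0 : algebraMap A k ϖ ≠ 0 := by
    rw [Ne, map_eq_zero_iff _ hinj]
    exact hϖ.ne_zero
  have ht0 : algebraMap A k t ≠ 0 := by
    rw [Ne, map_eq_zero_iff _ hinj]
    exact ht.ne_zero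
  have hd0 : d ≠ 0 := by
    rw [hdt]
    exact mul_ne_zero ht0 (zpow_ne_zero _ hϖ0)
  obtain ⟨δ, hδ0, hδ⟩ := root_exists hℓp.pos (c := algebraMap k (algebraicClosure k Ω) d)
    ((_root_.map_ne_zero _).2 hd0)
  have htU : IsU V (algebraMap A (algebraicClosure k Ω) t) := isU_of_unit hVa ht
  have hϖκ : algebraMap A (algebraicClosure k Ω) ϖ ≠ 0 := by
    rw [IsScalarTower.algebraMap_apply A k]
    exact (_root_.map_ne_zero _).2 hϖ0
  have hB : Base ℓ A k (algebraicClosure k Ω) V ϖ δ m := by
    refine ⟨hℓ, hVa, hVm, hϖ, hm, ⟨d, hδ⟩, ?_⟩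
    have h1 : δ ^ ℓ / algebraMap A (algebraicClosure k Ω) ϖ ^ m =
        algebraMap A (algebraicClosure k Ω) t := by
      rw [hδ, hdt, map_mul, map_zpow₀, ← IsScalarTower.algebraMap_apply,
        ← IsScalarTower.algebraMap_apply, mul_div_cancel_right₀ _ (zpow_ne_zero _ hϖκ)]
    rw [h1]
    exact htU
  obtain ⟨-, τ, hτ, hτδ, -, -⟩ := a_tau ℓ A k (algebraicClosure k Ω) V ϖ δ m hB
  obtain ⟨γ, hγ⟩ := ext_fix L hL τ
  -- the function
  have hfx : IsU O (algebraMap F Ω (aeval x (f₁.map (algebraMap A k)))) := by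
    have h1 : algebraMap F Ω (aeval x (f₁.map (algebraMap A k))) =
        aeval (algebraMap F Ω x) (f₁.map (algebraMap A (algebraicClosure k Ω))) := by
      rw [← aeval_algebraMap_apply, IsScalarTower.algebraMap_eq A k (algebraicClosure k Ω),
        ← Polynomial.map_map]
      generalize f₁.map (algebraMap A k) = g
      rw [aeval_def, aeval_def, eval₂_map, ← IsScalarTower.algebraMap_eq k (algebraicClosure k Ω) Ω]
    rw [h1]
    obtain ⟨n, hn⟩ := hf₁
    obtain ⟨h2, h3⟩ := hO.2.2 (f₁.map (algebraMap A (algebraicClosure k Ω))) (fun n => by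
      rw [coeff_map]
      exact hVa _) ⟨n, by
      rw [coeff_map, ← hVn]
      intro h4
      have h5 := isU_of_unit hVa hn
      rw [nonunits_iff] at h4
      rcases h4.2 with h6 | h6
      · exact h5.1 h6
      · exact h6 h5.2.2⟩
    exact isU_of_not_nonunit h2 h3
  set w : Ω := (δ : Ω) * z with hw
  have hwℓ : w ^ ℓ = algebraMap F Ω (aeval x (f₁.map (algebraMap A k))) := by
    rw [← hz, hw, mul_pow]
    congr 1
    have h1 := congrArg (fun c : algebraicClosure k Ω => (c : Ω)) hδ
    exact h1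
  have hwU : IsU O w := isU_of_pow hℓp.pos (by rw [hwℓ]; exact hfx)
  have hδΩ : (δ : Ω) ≠ 0 := fun h => hδ0 (Subtype.ext h)
  have hγz : γ z = z := γ.commutes ⟨z, hzL⟩
  refine ⟨O, γ.restrictScalars F, w, hO, fun u hu => γ.commutes ⟨u, hu⟩, ?_, ?_, hwU.2.1, ?_⟩
  · intro c hc hcO
    have h1 := hτ.2 ⟨c, hc⟩ hcO
    rw [hVn] at h1
    show γ c - c ∈ O.nonunits
    have h2 := hγ ⟨c, hc⟩
    have h3 : γ c = ((τ ⟨c, hc⟩ : algebraicClosure k Ω) : Ω) := h2
    rw [h3]
    exact h1
  · exact mul_mem (IntermediateField.algebraMap_mem _ δ)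
      (IntermediateField.subset_adjoin _ _ hzL)
  · intro h1
    have h2 : γ w = ((τ δ : algebraicClosure k Ω) : Ω) * z := by
      rw [hw, map_mul, hγ, hγz]
    have h3 : γ w - w = w * (((τ δ / δ - 1 : algebraicClosure k Ω)) : Ω) := by
      rw [h2, hw]
      have h4 : (((τ δ / δ - 1 : algebraicClosure k Ω)) : Ω) = (τ δ : Ω) / (δ : Ω) - 1 := rfl
      rw [h4]
      field_simp
    have h4 : γ w - w ∈ O.nonunits := h1
    rw [h3] at h4
    have h5 := non_of_isU_mul hwU h4
    rw [← hVn] at h5
    have hℓU : IsU V (ℓ : algebraicClosure k Ω) := by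
      have h1 := isU_of_unit (V := V) hVa hℓ
      rwa [map_natCast] at h1
    have h6 : (τ δ / δ) ^ ℓ = 1 := by
      rw [div_pow, ← map_pow, hδ, τ.commutes, div_self]
      exact (_root_.map_ne_zero _).2 hd0
    have h7 := root_eq hℓU hℓp.pos h6 (one_pow _) h5
    rw [div_eq_one_iff_eq hδ0] at h7
    exact hτδ h7

end criterion

end Pool.Agent.H66.SC
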