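import Pool.Agent.H66.SC.Coc
import Pool.Graph.R_pool_sql_team_seeded_efc1946e.K1H4.SC.Moeb
import Pool.Graph.R_seed8.R925.L.Fin

/-! The function fixed by a section: if `y ^ ℓ` is in the base field, then a section fixes
`y / δ` for some constant `δ`. -/

set_option autoImplicit false
set_option linter.all false

open Polynomial

namespace Pool.Agent.H66.SC

open Pool.Agent.Y157.PS

section twist

variable {k F Ω : Type} [Field k] [CharZero k] [Field F] [Field Ω] [Algebra k F] [Algebra F Ω]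
  [Algebra k Ω] [IsScalarTower k F Ω] [IsAlgClosed Ω] [Algebra.IsAlgebraic F Ω]

/-- the constants `δ` and `c = δ ^ ℓ` -/
theorem exists_twist {ℓ : ℕ} (hℓ : 0 < ℓ) (N : IntermediateField F Ω)
    (hN : ∀ z ∈ algebraicClosure k Ω, z ∈ N)
    (S : (algebraicClosure k Ω ≃ₐ[k] algebraicClosure k Ω) →* (N ≃ₐ[F] N)) (hS : Continuous S)
    (hcompat : ∀ σ (c : algebraicClosure k Ω) (z : N), (z : Ω) = (c : Ω) →
      (S σ z : Ω) = (σ c : Ω))
    (y : N) (hy0 : y ≠ 0) (h : F) (hy : (y : Ω) ^ ℓ = algebraMap F Ω h) :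
    ∃ (δ : algebraicClosure k Ω) (c : k), δ ≠ 0 ∧ δ ^ ℓ = algebraMap k (algebraicClosure k Ω) c ∧
      ∀ σ, S σ y = (⟨(σ δ : Ω) / (δ : Ω), hN _ (div_mem (σ δ).2 δ.2)⟩ : N) * y := by
  have hac : IsAlgClosure k (algebraicClosure k Ω) := inferInstance
  have hkb : IsAlgClosed (algebraicClosure k Ω) := hac.1
  have hyN : y ^ ℓ = algebraMap F N h := Subtype.ext hy
  have hz : ∀ σ, (S σ y / y) ^ ℓ = 1 := by
    intro σ
    rw [div_pow, ← map_pow, hyN, AlgEquiv.commutes, div_self]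
    rw [← hyN]
    exact pow_ne_zero _ hy0
  have hmem : ∀ σ, ((S σ y / y : N) : Ω) ∈ algebraicClosure k Ω := by
    intro σ
    rw [mem_algebraicClosure_iff]
    refine IsIntegral.isAlgebraic (IsIntegral.of_pow hℓ ?_)
    have h1 : ((S σ y / y : N) : Ω) ^ ℓ = 1 := congrArg (fun w : N => (w : Ω)) (hz σ)
    rw [h1]
    exact isIntegral_one
  let ζ : (algebraicClosure k Ω ≃ₐ[k] algebraicClosure k Ω) → algebraicClosure k Ω :=
    fun σ => ⟨_, hmem σ⟩
  have hζ : ∀ σ, (ζ σ : Ω) = ((S σ y / y : N) : Ω) := fun σ => rfl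
  have hS2 : ∀ σ τ, S (σ * τ) y = S σ (S τ y) := by
    intro σ τ
    rw [map_mul]; rfl
  obtain ⟨E, hE, hEf⟩ := cont_fix S hS y
  obtain ⟨δ, hδ, hδ'⟩ := exists_delta (k := k) hℓ ζ (fun σ => Subtype.ext (by
      show ((S σ y / y : N) : Ω) ^ ℓ = 1
      exact congrArg (fun w : N => (w : Ω)) (hz σ))) (fun σ τ => by
      apply Subtype.ext
      have h1 : ((S σ (S τ y / y) : N) : Ω) = (σ (ζ τ) : Ω) := hcompat σ (ζ τ) _ rfl
      show ((S (σ * τ) y / y : N) : Ω) = (σ (ζ τ) : Ω) * ((S σ y / y : N) : Ω)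
      rw [← h1]
      have h2 : S (σ * τ) y / y = S σ (S τ y / y) * (S σ y / y) := by
        have h3 : S σ y ≠ 0 := (map_ne_zero_iff _ (S σ).injective).2 hy0
        rw [hS2, map_div₀]
        field_simp
      rw [h2]
      rfl) E (fun σ hσ => by
      apply Subtype.ext
      rw [hζ, hEf σ hσ, div_self hy0]
      rfl)
  have hfix : ∀ σ : algebraicClosure k Ω ≃ₐ[k] algebraicClosure k Ω, σ (δ ^ ℓ) = δ ^ ℓ := by
    intro σ
    have h1 : ζ σ ^ ℓ = 1 := Subtype.ext (congrArg (fun w : N => (w : Ω)) (hz σ))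
    rw [hδ', div_pow, div_eq_one_iff_eq (pow_ne_zero _ hδ)] at h1
    rw [map_pow, h1]
  have hgal : IsGalois k (algebraicClosure k Ω) := by
    have hn : Normal k (algebraicClosure k Ω) := IsAlgClosure.normal k _
    exact ⟨⟩
  obtain ⟨c, hc⟩ := IntermediateField.mem_bot.1
    ((InfiniteGalois.mem_bot_iff_fixed (δ ^ ℓ)).2 hfix)
  refine ⟨δ, c, hδ, hc.symm, fun σ => ?_⟩
  have h1 : (⟨(σ δ : Ω) / (δ : Ω), hN _ (div_mem (σ δ).2 δ.2)⟩ : N) = S σ y / y := by
    apply Subtype.ext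
    rw [← hζ, hδ']
    rfl
  rw [h1, div_mul_cancel₀ _ hy0]

end twist

/-! ### a bigger base field -/

section base

variable {F Ω : Type} [Field F] [Field Ω] [Algebra F Ω]

/-- `N` as an extension of `F₁` -/
abbrev ext1 {F₁ N : IntermediateField F Ω} (h : F₁ ≤ N) : IntermediateField F₁ Ω :=
  IntermediateField.extendScalars h

/-- the identity -/
def eN {F₁ N : IntermediateField F Ω} (h : F₁ ≤ N) : N ≃+* ext1 h where
  toFun z := ⟨z, (IntermediateField.mem_extendScalars h).2 z.2⟩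
  invFun z := ⟨z, (IntermediateField.mem_extendScalars h).1 z.2⟩
  left_inv _ := rfl
  right_inv _ := rfl
  map_mul' _ _ := rfl
  map_add' _ _ := rfl

/-- the same automorphisms, over `F₁` -/
def S1 {G : Type} [Group G] {F₁ N : IntermediateField F Ω} (h : F₁ ≤ N) (S : G →* (N ≃ₐ[F] N))
    (hS : ∀ g, ∀ z : N, (z : Ω) ∈ F₁ → S g z = z) : G →* (ext1 h ≃ₐ[F₁] ext1 h) where
  toFun g := AlgEquiv.ofRingEquiv
    (f := ((eN h).symm.trans (S g).toRingEquiv).trans (eN h)) (by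
      intro c
      apply Subtype.ext
      exact congrArg (fun w : N => (w : Ω)) (hS g ((eN h).symm (algebraMap F₁ (ext1 h) c)) c.2))
  map_one' := by
    ext z
    show ((S 1 ((eN h).symm z) : N) : Ω) = _
    rw [map_one]
    rfl
  map_mul' g g' := by
    ext z
    show ((S (g * g') ((eN h).symm z) : N) : Ω) = _
    rw [map_mul]
    rfl

theorem S1_apply {G : Type} [Group G] {F₁ N : IntermediateField F Ω} (h : F₁ ≤ N)
    (S : G →* (N ≃ₐ[F] N)) (hS : ∀ g, ∀ z : N, (z : Ω) ∈ F₁ → S g z = z) (g : G) (z : N) :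
    S1 h S hS g (eN h z) = eN h (S g z) := rfl

theorem S1_cont {G : Type} [Group G] [TopologicalSpace G] [IsTopologicalGroup G]
    [Algebra.IsAlgebraic F Ω] {F₁ N : IntermediateField F Ω} (h : F₁ ≤ N)
    (S : G →* (N ≃ₐ[F] N)) (hS : ∀ g, ∀ z : N, (z : Ω) ∈ F₁ → S g z = z) (hc : Continuous S) :
    Continuous (S1 h S hS) := by
  refine Pool.Agent.K1H4.SC.cont_of _ fun z => ?_
  have h1 := Pool.Agent.K1H4.SC.cont_mem S hc ((eN h).symm z)
  refine Filter.mem_of_superset h1 fun g hg => ?_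
  show eN h (S g ((eN h).symm z)) = z
  have h4 : S g ((eN h).symm z) = (eN h).symm z := hg
  rw [h4]
  rfl

end base

end Pool.Agent.H66.SC
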