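import Pool.Agent.H66.SC.T1

/-! Sections over a curve which is an unramified twist: inertia acts trivially on the reduction. -/

set_option autoImplicit false
set_option linter.all false

open Polynomial FF

namespace Pool.Agent.H66.SC

open Pool.Agent.Y157.PS Pool.Agent.Y31.PS Pool.Agent.R925.Q Pool.Agent.R925.X Pool.Agent.R925.L

/-- the valuation ring `O` of `Ω` induces the Gauss valuation with respect to the coordinate `x` -/
def GaussAt (A k : Type) {Ω : Type} [CommRing A] [IsLocalRing A] [Field k] [Field Ω] [Algebra A k]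
    [Algebra k Ω] (x : Ω) (O : ValuationSubring Ω) : Prop :=
  (∀ a : A, algebraMap k Ω (algebraMap A k a) ∈ O) ∧
  (∀ a ∈ IsLocalRing.maximalIdeal A, algebraMap k Ω (algebraMap A k a) ∈ O.nonunits) ∧
  ∀ p : (algebraicClosure k Ω)[X], (∀ n, (p.coeff n : Ω) ∈ O) →
    (∃ n, (p.coeff n : Ω) ∉ O.nonunits) → aeval x p ∈ O ∧ aeval x p ∉ O.nonunits

section

variable {k κ : Type} [Field k] [Field κ] [Algebra k κ]

theorem ine_of {V : ValuationSubring κ} {σ : κ ≃ₐ[k] κ}
    (h : ∀ c ∈ V, σ c - c ∈ V.nonunits) : Ine V σ := by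
  refine ⟨fun z => ?_, h⟩
  have h1 : ∀ z ∈ V, σ z ∈ V := by
    intro z hz
    have h2 := add_mem (ValuationSubring.nonunits_subset (h z hz)) hz
    rwa [sub_add_cancel] at h2
  refine ⟨fun hz => ?_, h1 z⟩
  by_contra hz'
  have hz0 : z ≠ 0 := by
    rintro rfl
    exact hz' (zero_mem _)
  have h2 : z⁻¹ ∈ V := (V.mem_or_inv_mem z).resolve_left hz'
  have h3 : z⁻¹ ∈ V.nonunits := by
    rw [nonunits_iff]
    refine ⟨h2, Or.inr ?_⟩
    rw [inv_inv]
    exact hz'
  have h4 : σ z⁻¹ ∈ V.nonunits := by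
    have h5 := non_add (h _ h2) h3
    rwa [sub_add_cancel] at h5
  rw [nonunits_iff, map_inv₀, inv_inv] at h4
  rcases h4.2 with h5 | h5
  · exact hz0 ((map_eq_zero_iff σ σ.injective).1 (inv_eq_zero.1 h5))
  · exact h5 hz

end

section main

variable {A k F Ω : Type} [CommRing A] [IsDomain A] [IsDiscreteValuationRing A]
    [Finite (IsLocalRing.ResidueField A)] [Field k] [CharZero k] [Algebra A k] [IsFractionRing A k]
    [Field F] [Field Ω] [Algebra k F] [Algebra F Ω] [Algebra k Ω] [IsScalarTower k F Ω]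
    [IsAlgClosed Ω] [Algebra.IsAlgebraic F Ω]

/-- `d y ^ ℓ = f(x)` where the valuation of `d` is divisible by `ℓ`: inertia acts trivially on the
residue field of the Gauss valuation of `M` -/
theorem weight {ℓ : ℕ} [Fact ℓ.Prime] (hℓ : IsUnit (ℓ : A)) (f : A[X])
    (hlc : IsUnit f.leadingCoeff) (hs : (f.map (IsLocalRing.residue A)).Separable)
    (hdvd : ℓ ∣ f.natDegree) (h3 : 3 ≤ f.natDegree) (ϖ : A) (hϖ : Irreducible ϖ) (d : k) (m : ℤ)
    (t : A) (ht : IsUnit t) (hd : d = algebraMap A k t * algebraMap A k ϖ ^ ((ℓ : ℤ) * m))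
    (x y : F) (hx : Transcendental k x)
    (hxy : algebraMap k F d * y ^ ℓ = aeval x (f.map (algebraMap A k)))
    (hF : IntermediateField.adjoin k {x, y} = (⊤ : IntermediateField k F))
    (S : (algebraicClosure k Ω ≃ₐ[k] algebraicClosure k Ω) →*
      (geomPro ℓ k F Ω ≃ₐ[F] geomPro ℓ k F Ω)) (hcont : Continuous S)
    (hcompat : ∀ σ (c : algebraicClosure k Ω) (z : geomPro ℓ k F Ω), (z : Ω) = (c : Ω) →
      (S σ z : Ω) = (σ c : Ω))
    (O : ValuationSubring Ω) (hO : GaussAt A k (algebraMap F Ω x) O)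
    (σ : algebraicClosure k Ω ≃ₐ[k] algebraicClosure k Ω)
    (hσ : ∀ c : algebraicClosure k Ω, (c : Ω) ∈ O → ((σ c : Ω) - (c : Ω)) ∈ O.nonunits)
    (z : geomPro ℓ k F Ω) (hz : (z : Ω) ∈ O) : ((S σ z : Ω) - (z : Ω)) ∈ O.nonunits := by
  classical
  have hℓp : ℓ.Prime := Fact.out
  have hac : IsAlgClosure k (algebraicClosure k Ω) := inferInstance
  have hkb : IsAlgClosed (algebraicClosure k Ω) := hac.1
  have hch : CharZero (algebraicClosure k Ω) :=
    charZero_of_injective_algebraMap (algebraMap k (algebraicClosure k Ω)).injective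
  letI : Algebra A (algebraicClosure k Ω) :=
    ((algebraMap k (algebraicClosure k Ω)).comp (algebraMap A k)).toAlgebra
  haveI hst : IsScalarTower A k (algebraicClosure k Ω) :=
    IsScalarTower.of_algebraMap_eq (fun _ => rfl)
  let ι : algebraicClosure k Ω →+* Ω := algebraMap (algebraicClosure k Ω) Ω
  let V : ValuationSubring (algebraicClosure k Ω) := O.comap ι
  have hVn : ∀ c, c ∈ V.nonunits ↔ (c : Ω) ∈ O.nonunits := fun c => non_incl ι O c
  have hVa : ∀ a : A, algebraMap A (algebraicClosure k Ω) a ∈ V := hO.1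
  have hVm : ∀ a ∈ IsLocalRing.maximalIdeal A, algebraMap A (algebraicClosure k Ω) a ∈
    V.nonunits := by
    intro a ha
    rw [hVn]
    exact hO.2.1 a ha
  have hinj := IsFractionRing.injective A k
  have hIne : Ine V σ := ine_of fun c hc => by
    rw [hVn]
    exact hσ c hc
  -- the polynomial
  set f₀ : k[X] := f.map (algebraMap A k) with hf₀
  have hsep : f₀.Separable := key_sep V hVa hVm f hlc hs
  have hdeg : f₀.natDegree = f.natDegree := natDegree_map_eq_of_injective hinj f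
  have hlck : f₀.leadingCoeff = algebraMap A k f.leadingCoeff :=
    leadingCoeff_map_of_injective hinj f
  have hlck0 : f₀.leadingCoeff ≠ 0 := by
    rw [hlck, Ne, map_eq_zero_iff _ hinj]
    exact hlc.ne_zero
  have hf0 : f₀ ≠ 0 := leadingCoeff_ne_zero.1 hlck0
  set P₀ := f₀.map (algebraMap k (algebraicClosure k Ω)) with hP
  have hnd : P₀.roots.Nodup := nodup_roots hsep.map
  have hlc0 : algebraMap k (algebraicClosure k Ω) f₀.leadingCoeff ≠ 0 :=
    (_root_.map_ne_zero _).2 hlck0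
  have hP0 : P₀ ≠ 0 := (Polynomial.map_ne_zero_iff (algebraMap k _).injective).2 hf0
  have hPdeg : P₀.natDegree = f₀.natDegree :=
    natDegree_map_eq_of_injective (algebraMap k _).injective f₀
  set B : Finset (algebraicClosure k Ω) := P₀.roots.toFinset with hBdef
  have hmemB : ∀ θ, θ ∈ B ↔ aeval θ f₀ = 0 := by
    intro θ
    rw [hBdef, Multiset.mem_toFinset, mem_roots hP0, IsRoot.def, hP, eval_map]
    rfl
  have hcard : B.card = f.natDegree := by
    rw [hBdef, Multiset.toFinset_card_of_nodup hnd, ← hdeg, ← hPdeg]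
    exact (IsAlgClosed.splits P₀).natDegree_eq_card_roots.symm
  have hPx : ∀ z : Ω, P₀.eval₂ ι z =
      ι (algebraMap k (algebraicClosure k Ω) f₀.leadingCoeff) * ∏ e ∈ B, (z - ι e) := by
    intro z
    have h1 := (IsAlgClosed.splits P₀).eq_prod_roots
    have h5 : P₀.leadingCoeff = algebraMap k (algebraicClosure k Ω) f₀.leadingCoeff :=
      leadingCoeff_map_of_leadingCoeff_ne_zero _ hlc0
    rw [h5] at h1
    have h6 : ∏ e ∈ B, (z - ι e) = (P₀.roots.map fun e => z - ι e).prod := by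
      rw [hBdef, Finset.prod, Multiset.toFinset_val, Multiset.dedup_eq_self.2 hnd]
    rw [h6]
    conv_lhs => rw [h1]
    rw [eval₂_mul, eval₂_C, ← coe_eval₂RingHom, map_multiset_prod, Multiset.map_map]
    congr 2
    refine Multiset.map_congr rfl fun a _ => ?_
    simp
  -- the constants
  have hϖ0 : algebraMap A k ϖ ≠ 0 := by
    rw [Ne, map_eq_zero_iff _ hinj]
    exact hϖ.ne_zero
  have ht0 : algebraMap A k t ≠ 0 := by
    rw [Ne, map_eq_zero_iff _ hinj]
    exact ht.ne_zero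
  have hd0 : d ≠ 0 := by
    rw [hd]
    exact mul_ne_zero ht0 (zpow_ne_zero _ hϖ0)
  obtain ⟨δ, hδ0, hδ⟩ := root_exists hℓp.pos (c := algebraMap k (algebraicClosure k Ω)
    (d / f₀.leadingCoeff)) ((_root_.map_ne_zero _).2 (div_ne_zero hd0 hlck0))
  set X1 : Ω := algebraMap F Ω x with hX1
  have hfx : algebraMap F Ω (aeval x f₀) = P₀.eval₂ ι X1 := by
    have h1 : P₀.eval₂ ι X1 = aeval X1 f₀ := by
      rw [hP, eval₂_map, ← IsScalarTower.algebraMap_eq k (algebraicClosure k Ω) Ω, aeval_def]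
    rw [h1, hX1, aeval_algebraMap_apply]
  set Y0 : Ω := (δ : Ω) * algebraMap F Ω y with hY0
  have hY : Y0 ^ ℓ = ∏ e ∈ B, (X1 - ι e) := by
    have h1 := congrArg (algebraMap F Ω) hxy
    rw [map_mul, map_pow, ← IsScalarTower.algebraMap_apply, hfx, hPx] at h1
    have h5 : ι (algebraMap k (algebraicClosure k Ω) f₀.leadingCoeff) ≠ 0 :=
      (_root_.map_ne_zero _).2 hlc0
    have h6 : (δ : Ω) ^ ℓ = algebraMap k Ω d / ι
        (algebraMap k (algebraicClosure k Ω) f₀.leadingCoeff) := by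
      have h7 := congrArg ι hδ
      rw [map_pow, map_div₀, map_div₀] at h7
      have h8 : ι (algebraMap k (algebraicClosure k Ω) d) = algebraMap k Ω d :=
        (IsScalarTower.algebraMap_apply k (algebraicClosure k Ω) Ω d).symm
      rw [h8] at h7
      exact h7
    rw [hY0, mul_pow, h6, div_mul_eq_mul_div, h1, mul_div_cancel_left₀ _ h5]
  -- the covering field
  have hX0 : Transcendental k (algebraMap F Ω x) :=
    (transcendental_algebraMap_iff (R := k) (algebraMap F Ω).injective (a := x)).2 hx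
  have hrat := ratF_adj (trans_up hX0)
  let R := IntermediateField.adjoin (algebraicClosure k Ω) {algebraMap F Ω x}
  have hX1R : X1 ∈ IntermediateField.adjoin (algebraicClosure k Ω) {algebraMap F Ω x} :=
    IntermediateField.mem_adjoin_simple_self _ _
  have hYR : Y0 ^ ℓ ∈ IntermediateField.adjoin (algebraicClosure k Ω) {algebraMap F Ω x} := by
    rw [hY]
    exact prod_mem fun e _ => sub_mem hX1R (IntermediateField.algebraMap_mem _ e)
  have hclR := closure_R hF δ hδ0 hℓp.pos hYR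
  let x' : R := ⟨algebraMap F Ω x, IntermediateField.mem_adjoin_simple_self _ _⟩
  have hx' : algebraMap R Ω x' = X1 := rfl
  obtain ⟨M, hM⟩ : ∃ M : IntermediateField R Ω,
      ∀ z, z ∈ M ↔ z ∈ maxPro ℓ (algebraicClosure k Ω) (IntermediateField.adjoin R {Y0}) Ω :=
    ⟨(maxPro ℓ (algebraicClosure k Ω) (IntermediateField.adjoin R {Y0}) Ω).restrictScalars R,
      fun z => Iff.rfl⟩
  have hYM : Y0 ∈ M := by
    rw [hM]
    exact (maxPro ℓ (algebraicClosure k Ω) (IntermediateField.adjoin R {Y0}) Ω).algebraMap_mem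
      ⟨Y0, IntermediateField.mem_adjoin_simple_self _ _⟩
  have hCov : Cov ℓ (algebraicClosure k Ω) R M x' B ⟨Y0, hYM⟩ :=
    a_cov ℓ (algebraicClosure k Ω) R Ω x' hrat B (by rw [hcard]; exact hdvd)
      (by rw [hcard]; exact h3) Y0 hY M hM ⟨Y0, hYM⟩ rfl
  have hMN : ∀ z, z ∈ M ↔ z ∈ geomPro ℓ k F Ω := fun z =>
    (hM z).trans (maxPro_geom ℓ k hF δ hδ0 z)
  let eqv : M ≃+* geomPro ℓ k F Ω :=
    { toFun := fun w => ⟨w.1, (hMN _).1 w.2⟩
      invFun := fun w => ⟨w.1, (hMN _).2 w.2⟩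
      left_inv := fun w => rfl
      right_inv := fun w => rfl
      map_mul' := fun w w' => rfl
      map_add' := fun w w' => rfl }
  have hcont' : ∀ z : geomPro ℓ k F Ω, ∃ E : IntermediateField k (algebraicClosure k Ω),
      FiniteDimensional k E ∧ ∀ σ ∈ E.fixingSubgroup, S σ z = z := by
    haveI : Algebra.IsIntegral F (geomPro ℓ k F Ω) := inferInstance
    exact fun z => cont_fix S hcont z
  -- the action
  let s' : (algebraicClosure k Ω ≃ₐ[k] algebraicClosure k Ω) →* RingAut M := conjSec eqv S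
  have hs' : ∀ σ z, eqv (s' σ z) = S σ (eqv z) := fun σ z => conjSec_apply eqv S σ z
  have hs'Ω : ∀ σ (z : M) (w : geomPro ℓ k F Ω), (w : Ω) = (z : Ω) →
      ((s' σ z : M) : Ω) = ((S σ w : geomPro ℓ k F Ω) : Ω) := by
    intro σ z w hw
    have h1 : w = eqv z := Subtype.ext hw
    rw [h1, ← hs']
    rfl
  have hconst : ∀ σ c, s' σ (algebraMap (algebraicClosure k Ω) M c) =
      algebraMap (algebraicClosure k Ω) M (σ c) := by
    intro σ c
    apply Subtype.ext
    rw [hs'Ω σ _ ⟨(c : Ω), const_geomPro ℓ k c⟩ rfl]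
    exact hcompat σ c _ rfl
  have hbase : ∀ σ (z : F) (w : M), (w : Ω) = algebraMap F Ω z → s' σ w = w := by
    intro σ z w hw
    apply eqv.injective
    have h1 : eqv w = algebraMap F _ z := Subtype.ext hw
    rw [hs', h1]
    exact (S σ).commutes z
  have hSec : Sec2 k (algebraicClosure k Ω) R M x' ⟨Y0, hYM⟩ 1 δ s' := by
    refine ⟨hconst, fun σ => ?_, fun σ => ?_, fun z => ?_⟩
    · rw [map_one, div_one, map_one, one_mul]
      exact hbase σ x _ rfl
    · have hyM : algebraMap F Ω y ∈ M := by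
        rw [hMN]
        exact (geomPro ℓ k F Ω).algebraMap_mem y
      have h1 : (⟨Y0, hYM⟩ : M) = algebraMap (algebraicClosure k Ω) M δ * ⟨algebraMap F Ω y, hyM⟩ :=
        rfl
      rw [h1, map_mul, hconst, hbase σ y _ rfl, ← mul_assoc, ← map_mul, div_mul_cancel₀ _ hδ0]
    · obtain ⟨E, hE, hE'⟩ := hcont' (eqv z)
      refine ⟨E, hE, fun σ hσ => eqv.injective ?_⟩
      rw [hs', hE' σ hσ]
  -- the branch points
  have hVa' : ∀ a : A, algebraMap A (algebraicClosure k Ω) a ∈ V := hVa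
  obtain ⟨hnd', hdist⟩ := Pool.Agent.W623.SecC.roots_distinct V hVa hVm f hlc hs
  have hmemB' : ∀ θ, θ ∈ B ↔ aeval θ f = 0 := by
    intro θ
    rw [hmemB, hf₀, aeval_map_algebraMap]
  have hP0' : f.map (algebraMap A (algebraicClosure k Ω)) ≠ 0 := by
    have hlc1 : algebraMap A (algebraicClosure k Ω) f.leadingCoeff ≠ 0 :=
      (hlc.map (algebraMap A (algebraicClosure k Ω))).ne_zero
    intro h
    apply hlc1
    rw [← leadingCoeff_map_of_leadingCoeff_ne_zero _ hlc1, h, leadingCoeff_zero]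
  have hroots : ∀ θ, θ ∈ B ↔ θ ∈ (f.map (algebraMap A (algebraicClosure k Ω))).roots := by
    intro θ
    rw [hmemB', mem_roots hP0', IsRoot.def, eval_map]
    rfl
  have hGood : Good V B := by
    constructor
    · intro e he
      exact Pool.Agent.W308.SecC.root_mem V hVa _ hlc _ ((hmemB' _).1 he)
    · intro e he e' he' hne
      exact hdist e ((hroots _).1 he) e' ((hroots _).1 he') hne
  obtain ⟨F0, iF0, r, hr, ⟨D⟩⟩ := a_ndisc A k (algebraicClosure k Ω) V hVa hVm ℓ hℓ
  have hRot := a_gex ℓ (algebraicClosure k Ω) R M x' B _ hCov F0 V r hr hGood D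
  obtain ⟨e0, he0⟩ : B.Nonempty := by
    rw [← Finset.card_pos]
    have := hCov.three
    omega
  obtain ⟨O', -, -, hO', -⟩ := hRot e0 he0
  have hun : ∀ O'' : ValuationSubring M, Gauss V (algebraMap R M x') O'' → O'' = O' :=
    fun O'' h => a_gun ℓ (algebraicClosure k Ω) R M x' B _ hCov V hRot O'' O' h hO'
  -- the valuation ring `O ∩ M`
  let OM : ValuationSubring M := O.comap (algebraMap M Ω)
  have hOMn : ∀ w : M, w ∈ OM.nonunits ↔ (w : Ω) ∈ O.nonunits := fun w =>
    non_incl (algebraMap M Ω) O w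
  have hOM : Gauss V (algebraMap R M x') OM := by
    refine ⟨fun c => Iff.rfl, fun p hp hp' => ?_⟩
    obtain ⟨n, hn⟩ := hp'
    have h1 := hO.2.2 p hp ⟨n, fun h => ?_⟩
    · have h2 : ((aeval (algebraMap R M x') p : M) : Ω) = aeval (algebraMap F Ω x) p := by
        have h4 : algebraMap M Ω (aeval (algebraMap R M x') p) =
            aeval (algebraMap M Ω (algebraMap R M x')) p := (aeval_algebraMap_apply _ _ _).symm
        exact h4
      refine ⟨fun h => h1.2 ?_, ?_, ?_⟩
      · rw [← h2, h]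
        exact nonunits_iff.2 ⟨zero_mem _, Or.inl rfl⟩
      · show ((aeval (algebraMap R M x') p : M) : Ω) ∈ O
        rw [h2]
        exact h1.1
      · show (((aeval (algebraMap R M x') p)⁻¹ : M) : Ω) ∈ O
        have h4 := inv_mem_of_not_nonunit h1.2
        rw [← h2] at h4
        exact h4
    · rw [← hVn, nonunits_iff] at h
      rcases h.2 with h4 | h4
      · exact hn.1 h4
      · exact h4 hn.2.2
  have hOO : OM = O' := hun OM hOM
  -- `σ` fixes `δ`
  have hℓU : IsU V (ℓ : algebraicClosure k Ω) := by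
    have := isU_of_unit (V := V) hVa (t := (ℓ : A)) hℓ
    rwa [map_natCast] at this
  have hϖκ : algebraMap A (algebraicClosure k Ω) ϖ ≠ 0 := by
    rw [IsScalarTower.algebraMap_apply A k (algebraicClosure k Ω)]
    exact (_root_.map_ne_zero _).2 hϖ0
  have hu : (δ / algebraMap A (algebraicClosure k Ω) ϖ ^ m) ^ ℓ =
      algebraMap A (algebraicClosure k Ω) t /
        algebraMap A (algebraicClosure k Ω) f.leadingCoeff := by
    rw [div_pow, hδ, hd, hlck, map_div₀, map_mul, map_zpow₀, ← IsScalarTower.algebraMap_apply,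
      ← IsScalarTower.algebraMap_apply, ← IsScalarTower.algebraMap_apply, ← zpow_natCast,
      ← zpow_mul, mul_comm m (ℓ : ℤ)]
    have h4 : algebraMap A (algebraicClosure k Ω) ϖ ^ ((ℓ : ℤ) * m) ≠ 0 := zpow_ne_zero _ hϖκ
    field_simp
  have huU : IsU V ((δ / algebraMap A (algebraicClosure k Ω) ϖ ^ m) ^ ℓ) := by
    rw [hu, div_eq_mul_inv]
    exact (isU_of_unit hVa ht).mul (isU_of_unit hVa hlc).inv
  have huU' : IsU V (δ / algebraMap A (algebraicClosure k Ω) ϖ ^ m) := by
    have h4 : δ / algebraMap A (algebraicClosure k Ω) ϖ ^ m ≠ 0 :=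
      div_ne_zero hδ0 (zpow_ne_zero _ hϖκ)
    have h5 : ∀ w : algebraicClosure k Ω, w ^ ℓ ∈ V → w ∈ V := by
      intro w hw
      rw [← ValuationSubring.valuation_le_one_iff] at hw ⊢
      rw [map_pow] at hw
      exact (pow_le_one_iff hℓp.ne_zero).1 hw
    refine ⟨h4, h5 _ huU.2.1, h5 _ ?_⟩
    rw [inv_pow]
    exact huU.2.2
  have hσδ : σ δ = δ := by
    have h4 := ine_unit hℓp.pos hℓU hIne huU' ⟨algebraMap A k t / algebraMap A k f.leadingCoeff, by
      rw [hu, map_div₀, ← IsScalarTower.algebraMap_apply, ← IsScalarTower.algebraMap_apply]⟩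
    rw [map_div₀, map_zpow₀, IsScalarTower.algebraMap_apply A k (algebraicClosure k Ω),
      σ.commutes, ← IsScalarTower.algebraMap_apply A k (algebraicClosure k Ω)] at h4
    exact (div_left_inj' (zpow_ne_zero _ hϖκ)).1 h4
  -- the weights
  have hzM : (z : Ω) ∈ M := (hMN _).2 z.2
  have hkey := wgt2 hℓ hVa hVm hCov hGood hr D one_ne_zero hδ0 hSec hO' hun hIne (map_one σ) hσδ
    (z := ⟨(z : Ω), hzM⟩) (by rw [← hOO]; exact hz)
  rw [← hOO, hOMn] at hkey
  have h9 : ((s' σ ⟨(z : Ω), hzM⟩ - ⟨(z : Ω), hzM⟩ : M) : Ω) = (S σ z : Ω) - (z : Ω) := by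
    rw [AddSubgroupClass.coe_sub, hs'Ω σ _ z rfl]
  rw [h9] at hkey
  exact hkey

end main

end Pool.Agent.H66.SC
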